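import Pool.Agent.H979.DE.Stm
import Pool.Graph.R_pool_sql_team_ae5b0c61.H41.Derrw3

/-!
# Assembly
-/

set_option autoImplicit false
set_option linter.unusedVariables false

open MeasureTheory Finset Filter Pool.Agent.H41.Derrw
open scoped ENNReal

namespace Pool.Agent.H979.DE

theorem has_nbr {V : Type} (G : SimpleGraph V) (hc : G.Connected) (ha : ¬ G.IsAcyclic) (x : V) :
    ∃ y, G.Adj x y := by
  haveI : Nontrivial V := by
    by_contra hn
    rw [not_nontrivial_iff_subsingleton] at hn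
    apply ha
    intro u c hcy
    have h1 := hcy.three_le_length
    have h2 : ∀ (a b : V), ¬ G.Adj a b := fun a b h => h.ne (Subsingleton.elim a b)
    cases c with
    | nil => simp at h1
    | cons h p => exact h2 _ _ h
  exact hc.preconnected.exists_adj_of_nontrivial x

theorem fin_one (hCONF : S_CONF) (hTRAP : S_TRAP) (hCYM : S_CYM) (hMONO : S_MONO) (hLEX : S_LEX)
    (hIRG : S_IRG) (hIRC : S_IRC) (hPG : S_PG) (hH : S_H) (hVAL : S_VAL)
    (V : Type) [DecidableEq V] [Fintype V] [MeasurableSpace V] [DiscreteMeasurableSpace V]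
    (G : SimpleGraph V) [G.LocallyFinite] (hc : G.Connected) (ha : ¬ G.IsAcyclic) (γ : ℝ) (v : V)
    (P : Measure (ℕ → V)) (hP : IsLaw G γ v P)
    (hγ : 1 < γ ∨ (1 / 2 < γ ∧ ∀ x, G.degree x = 2)) : ∀ᵐ w ∂P, w ∈ Trapped G := by
  classical
  have hG := has_nbr G hc ha
  have hγ0 : 0 < γ := by rcases hγ with h | h <;> linarith [h]
  have hcard : ∀ x, G.degree x ≤ Fintype.card V := fun x => Finset.card_le_univ _
  have hD : 0 < Fintype.card V := Fintype.card_pos_iff.2 ⟨v⟩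
  obtain ⟨L, hL⟩ := hLEX V G hc ha
  -- bounds
  obtain ⟨p, hp1, hp2, hp3⟩ : ∃ p : ℕ → ℝ, Summable p ∧ (∀ m, 1 ≤ m → 0 ≤ p m ∧ p m < 1) ∧
      (∀ (w : ℕ → V) n, Val G w n → Good G w n → irr G γ w n ≤ p (out G w n (w n))) := by
    rcases hγ with h | h
    · obtain ⟨h1, h2⟩ := hPG.1 γ (Fintype.card V) h hD
      exact ⟨_, h1, h2, fun w n _ hg => hIRG V G γ w n _ hγ0 hD (hcard _) hg⟩
    · obtain ⟨h1, h2⟩ := hPG.2 γ h.1
      exact ⟨_, h1, h2, fun w n hv hg => hIRC V G γ w n hγ0 hv (h.2 _) hg⟩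
  obtain ⟨H, hH1, hH2, hH3⟩ := hH p hp1 hp2
  have hreg := hCONF V G γ v P hG hP Finset.univ Finset.univ (Fintype.card V) L p H hD
    (Finset.Subset.refl _) hp2 hH1 hH2 hH3 (fun w n hv _ hg => hp3 w n hv hg) hcard
    (fun x n hx _ => hL x n hx)
  have hval := hVAL V G γ v P hP
  have hmono : ∀ᵐ w ∂P, (∃ N, ∀ n, N ≤ n → Reg w n) → ∀ x y z, y ≠ z →
      ¬ ((∃ᶠ n in atTop, w n = x ∧ w (n + 1) = y) ∧ (∃ᶠ n in atTop, w n = x ∧ w (n + 1) = z)) := by
    rcases hγ with h | h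
    · exact hMONO V G γ v P hG hP h
    · filter_upwards [hval] with w hw hr
      exact hCYM V G w hw.2 h.2 hr
  filter_upwards [hreg, hval, hmono] with w h1 h2 h3
  have h4 := h1 fun n => Finset.mem_univ _
  exact hTRAP V G w Finset.univ h2.2 (fun n => Finset.mem_univ _) h4 (h3 h4)

theorem zd_one (hCONF : S_CONF) (hTRAP : S_TRAP) (hMONO : S_MONO) (hLEXZ : S_LEXZ)
    (hIRG : S_IRG) (hPG : S_PG) (hH : S_H) (hVAL : S_VAL) (hZDEG : S_ZDEG) (hREC : S_REC)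
    (hZINF : S_ZINF) (d : ℕ) [MeasurableSpace (Fin d → ℤ)] [DiscreteMeasurableSpace (Fin d → ℤ)]
    (hd : 2 ≤ d) (γ : ℝ) (v : Fin d → ℤ) (P : Measure (ℕ → Fin d → ℤ))
    (hP : IsLaw (Zd d) γ v P) (hγ : 1 < γ) : ∀ᵐ w ∂P, w ∈ Trapped (Zd d) := by
  have hG : ∀ x, ∃ y, (Zd d).Adj x y := by
    intro x
    have h3 := (hZDEG d hd x).1
    have h4 : 0 < (Zd d).degree x := by omega
    exact ((Zd d).degree_pos_iff_exists_adj x).1 h4
  have hD : 0 < 3 ^ d := by positivity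
  have hγ0 : 0 < γ := by linarith
  obtain ⟨hp1, hp2⟩ := hPG.1 γ (3 ^ d) hγ hD
  obtain ⟨H, hH1, hH2, hH3⟩ := hH _ hp1 hp2
  have hdeg : ∀ x, (Zd d).degree x ≤ 3 ^ d := fun x => (hZDEG d hd x).2
  have hreg : ∀ᵐ w ∂P, ∀ B : Finset (Fin d → ℤ), (∀ n, w n ∈ B) → ∃ N, ∀ n, N ≤ n → Reg w n := by
    rw [ae_all_iff]
    intro B
    refine hCONF (Fin d → ℤ) (Zd d) γ v P hG hP B B (3 ^ d) 8 _ H hD (Finset.Subset.refl _) hp2
      hH1 hH2 hH3 (fun w n _ _ hg => hIRG _ (Zd d) γ w n _ hγ0 hD (hdeg _) hg) hdeg ?_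
    intro x n hx _
    obtain ⟨y, h1, h2, _, h4⟩ := hLEXZ d hd x n hx
    exact ⟨y, h1, h2, h4⟩
  filter_upwards [hreg, hVAL _ (Zd d) γ v P hP, hMONO _ (Zd d) γ v P hG hP hγ,
    hZINF d γ v P hd hγ hP] with w h1 h2 h3 h4
  by_cases hr : ∃ᶠ n in atTop, Rec w n
  · exact h4 hr
  · obtain ⟨B, hB⟩ := hREC d w hr
    have h5 := h1 B hB
    exact hTRAP _ (Zd d) w B h2.2 hB h5 (h3 h5)

theorem meas_trapped {V : Type} [DecidableEq V] [Countable V] [MeasurableSpace V]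
    [DiscreteMeasurableSpace V] (G : SimpleGraph V) : MeasurableSet (Trapped G) :=
  trapped_countable.measurableSet

theorem prob_one {V : Type} [DecidableEq V] [Countable V] [MeasurableSpace V]
    [DiscreteMeasurableSpace V] (G : SimpleGraph V) (P : Measure (ℕ → V)) [IsProbabilityMeasure P]
    (h : ∀ᵐ w ∂P, w ∈ Trapped G) : P (Trapped G) = 1 := by
  rw [← prob_compl_eq_zero_iff (meas_trapped G)]
  exact h

/-- All the statements together: the walk exists, and it is trapped with probability one above the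
threshold and with probability zero at and below it. -/
theorem main (hCONF : S_CONF) (hTRAP : S_TRAP) (hCYM : S_CYM) (hMONO : S_MONO) (hLEX : S_LEX)
    (hLEXZ : S_LEXZ) (hIRG : S_IRG) (hIRC : S_IRC) (hPG : S_PG) (hH : S_H) (hVAL : S_VAL)
    (hZDEG : S_ZDEG) (hREC : S_REC) (hZINF : S_ZINF) (hCIRC : S_CIRC) :
    (∀ (V : Type) [DecidableEq V] [Fintype V] [MeasurableSpace V] [DiscreteMeasurableSpace V]
      (G : SimpleGraph V) [G.LocallyFinite], G.Connected → ¬ G.IsTree → ∀ (γ : ℝ) (v : V), 0 < γ →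
      (∃ P, IsLaw G γ v P) ∧ ∀ P, IsLaw G γ v P →
        ((∀ x, G.degree x = 2) →
          (γ ≤ 1 / 2 → P (Trapped G) = 0) ∧ (1 / 2 < γ → P (Trapped G) = 1)) ∧
        ((∃ x, G.degree x ≠ 2) →
          (γ ≤ 1 → P (Trapped G) = 0) ∧ (1 < γ → P (Trapped G) = 1))) ∧
    (∀ (d : ℕ) [MeasurableSpace (Fin d → ℤ)] [DiscreteMeasurableSpace (Fin d → ℤ)], 2 ≤ d →
      ∀ (γ : ℝ) (v : Fin d → ℤ), 0 < γ →
      (∃ P, IsLaw (Zd d) γ v P) ∧ ∀ P, IsLaw (Zd d) γ v P →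
        (γ ≤ 1 → P (Trapped (Zd d)) = 0) ∧ (1 < γ → P (Trapped (Zd d)) = 1)) := by
  constructor
  · intro V _ _ _ _ G _ hc ht γ v hγ
    have ha : ¬ G.IsAcyclic := fun h => ht ⟨hc, h⟩
    have hG := has_nbr G hc ha
    refine ⟨exists_law hG γ v, fun P hP => ?_⟩
    haveI := hP.1
    refine ⟨fun h2 => ⟨fun h => zero hγ (Or.inl h) hP, fun h => prob_one G P ?_⟩,
      fun h2 => ⟨fun h => zero hγ (Or.inr ⟨h, hCIRC V G hc h2⟩) hP, fun h => prob_one G P ?_⟩⟩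
    · exact fin_one hCONF hTRAP hCYM hMONO hLEX hIRG hIRC hPG hH hVAL V G hc ha γ v P hP
        (Or.inr ⟨h, h2⟩)
    · exact fin_one hCONF hTRAP hCYM hMONO hLEX hIRG hIRC hPG hH hVAL V G hc ha γ v P hP
        (Or.inl h)
  · intro d _ _ hd γ v hγ
    have hG : ∀ x, ∃ y, (Zd d).Adj x y := by
      intro x
      have h3 := (hZDEG d hd x).1
      have h4 : 0 < (Zd d).degree x := by omega
      exact ((Zd d).degree_pos_iff_exists_adj x).1 h4
    refine ⟨exists_law hG γ v, fun P hP => ?_⟩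
    haveI := hP.1
    refine ⟨fun h => zero hγ (Or.inr ⟨h, fun m u hu => ?_⟩) hP, fun h => prob_one _ P ?_⟩
    · have h3 : 3 ≤ m := hu.1
      exact ⟨0, (hZDEG d hd _).1⟩
    · exact zd_one hCONF hTRAP hMONO hLEXZ hIRG hPG hH hVAL hZDEG hREC hZINF d hd γ v P hP h

end Pool.Agent.H979.DE
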