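import Pool.Graph.R_pool_sql_team_ae5b0c61.H41.DerrwDefs

/-!
# Directed edge reinforced random walk with polynomial reinforcement: definitions

The model is that of the library file `H41/DerrwDefs` (`cross`, `wt`, `trans`, `IsLaw`, `IsCircuit`,
`Trapped`).
-/

set_option autoImplicit false
set_option linter.unusedVariables false

open MeasureTheory Finset Pool.Agent.H41.Derrw
open scoped ENNReal

namespace Pool.Agent.H979.DE

/-- the paths which agree with `x` up to time `n` -/
def cyl {V : Type} (x : ℕ → V) (n : ℕ) : Set (ℕ → V) := {w | ∀ k ≤ n, w k = x k}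

/-- the path moves along edges up to time `n` -/
def Val {V : Type} (G : SimpleGraph V) (w : ℕ → V) (n : ℕ) : Prop :=
  ∀ k < n, G.Adj (w k) (w (k + 1))

section Defs

variable {V : Type} [DecidableEq V]

/-- the total positive outflow of the vertex `x` at time `n` -/
def out (G : SimpleGraph V) [G.LocallyFinite] (w : ℕ → V) (n : ℕ) (x : V) : ℕ :=
  ∑ y ∈ G.neighborFinset x, (cross w n x y).toNat

/-- the step at time `n` is regular: it crosses an edge with positive crossing number -/
def Reg (w : ℕ → V) (n : ℕ) : Prop := 0 < cross w n (w n) (w (n + 1))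

/-- at time `n` a regular step is possible -/
def Good (G : SimpleGraph V) (w : ℕ → V) (n : ℕ) : Prop :=
  ∃ y, G.Adj (w n) y ∧ 0 < cross w n (w n) y

/-- from time `n` on, all the steps before the exit from `B` are regular -/
def Ev (B : Finset V) (n : ℕ) : Set (ℕ → V) :=
  {w | ∀ k, n ≤ k → (∀ j, n ≤ j → j ≤ k → w j ∈ B) → Reg w k}

/-- the total probability of the steps which are not regular -/
noncomputable def irr (G : SimpleGraph V) [G.LocallyFinite] (γ : ℝ) (w : ℕ → V) (n : ℕ) : ℝ :=
  ∑ y ∈ (G.neighborFinset (w n)).filter (fun y => cross w n (w n) y ≤ 0), trans G γ w n y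

open Classical in
/-- the number of the steps from `x` to `y` at times in `[n, k)` before the first irregular step
after time `n` -/
noncomputable def cnt (w : ℕ → V) (n k : ℕ) (x y : V) : ℕ :=
  ((Finset.Ico n k).filter
    (fun j => (∀ i, n ≤ i → i < j → Reg w i) ∧ w j = x ∧ w (j + 1) = y)).card

end Defs

/-- bound of the probability of an irregular step, for degrees at most `D` -/
noncomputable def pg (γ : ℝ) (D k : ℕ) : ℝ := D / (D + ((k : ℝ) / D) ^ γ)

/-- bound of the probability of an irregular step at a vertex of degree two -/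
noncomputable def pc (γ : ℝ) (k : ℕ) : ℝ := 1 / (1 + (k : ℝ) ^ (2 * γ))

/-- tail of the zeta series -/
noncomputable def tl (s : ℝ) (m : ℕ) : ℝ := ∑' j : ℕ, ((m + j : ℕ) : ℝ) ^ (-s)

/-- The lattice `ℤ^d`: two points are adjacent if their `ℓ¹` distance is one. -/
def Zd (d : ℕ) : SimpleGraph (Fin d → ℤ) where
  Adj x y := ∑ i, |x i - y i| = 1
  symm := ⟨fun x y h => by simpa only [abs_sub_comm] using h⟩
  loopless := ⟨fun x h => by simp at h⟩

theorem Zd_near {d : ℕ} {x y : Fin d → ℤ} (h : (Zd d).Adj x y) (i : Fin d) : |x i - y i| ≤ 1 := by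
  have h1 : ∑ i, |x i - y i| = 1 := h
  rw [← h1]
  exact Finset.single_le_sum (f := fun i => |x i - y i|) (fun j _ => abs_nonneg _) (Finset.mem_univ i)

noncomputable instance ZdLF (d : ℕ) : (Zd d).LocallyFinite := fun x =>
  Set.Finite.fintype ((Set.finite_Icc (fun i => x i - 1) (fun i => x i + 1)).subset (by
    intro y hy
    rw [SimpleGraph.mem_neighborSet] at hy
    constructor
    · intro i
      have := abs_le.1 (Zd_near hy i)
      show x i - 1 ≤ y i
      omega
    · intro i
      have := abs_le.1 (Zd_near hy i)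
      show y i ≤ x i + 1
      omega))

/-- record time: some coordinate of the path takes a new extreme value -/
def Rec {d : ℕ} (w : ℕ → Fin d → ℤ) (n : ℕ) : Prop :=
  ∃ i, (∀ k < n, w k i < w n i) ∨ (∀ k < n, w n i < w k i)

end Pool.Agent.H979.DE
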