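import Pool.Agent.H979.DE.Defs

/-!
# Directed edge reinforced random walk, polynomial reinforcement with `γ > 1`: statements
(each `S_X` is a task), with proofs in the docstrings

Theorem of the project (full answer to Q2 of MP_856411_pr): on every finite connected graph which is
not a tree and on `ℤ^d`, `d ≥ 2`, the walk is a.s. trapped in a directed circuit if `γ > 1`; together
with the library (no trapping for `γ ≤ 1` unless the graph is a cycle, for `γ ≤ 1/2` on cycles) the
threshold is `1/2` for cycles and `1` for all the other graphs.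

Conventions. `c_n(x,y) = cross w n x y`; `cross w (n+1) x y = cross w n x y + [w n = x, w (n+1) = y] -
[w n = y, w (n+1) = x]`; `cross w n x y = - cross w n y x`. All `cross w n`, `trans G γ w n`, `out G w n`,
`Good G w n` depend only on `w 0, ..., w n`, and `Reg w n` only on `w 0, ..., w (n+1)`.
-/

set_option autoImplicit false
set_option linter.unusedVariables false

open MeasureTheory Finset Filter Pool.Agent.H41.Derrw
open scoped ENNReal

namespace Pool.Agent.H979.DE

/-! ## Deterministic statements -/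

/-- Conservation: number of departures from `x` minus number of arrivals at `x`.

Proof. Induction on `n`. Step: `cross w (n+1) x y - cross w n x y = [w n = x, w (n+1) = y] -
[w n = y, w (n+1) = x]`; the sum over the neighbours `y` of `x` of the first bracket is `[w n = x]`
(because `w (n+1)` is a neighbour of `w n`), of the second `[w (n+1) = x]` (because `w n` is a
neighbour of `w (n+1)`). -/
def S_CONS : Prop := ∀ (V : Type) [DecidableEq V] (G : SimpleGraph V) [G.LocallyFinite] (w : ℕ → V)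
  (n : ℕ), Val G w n → ∀ x, ∑ y ∈ G.neighborFinset x, cross w n x y =
    (if w 0 = x then 1 else 0) - (if w n = x then 1 else 0)

/-- After a regular step a regular step is possible.

Proof (uses S_CONS). Let `x = w n`, `y = w (n+1)`, `c = cross w n x y ≥ 1`. As `x ≠ y` (adjacent),
`cross w (n+1) x y = c + 1 ≥ 2`, so `cross w (n+1) y x ≤ -2`. By S_CONS at time `n+1` and the vertex
`y`: `∑_z cross w (n+1) y z = [w 0 = y] - 1 ≥ -1`, and `x` is one of the `z`, so the sum over the
other `z` is `≥ 1`, hence some `cross w (n+1) y z > 0`. -/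
def S_GNEXT : Prop := ∀ (V : Type) [DecidableEq V] (G : SimpleGraph V) [G.LocallyFinite]
  (w : ℕ → V) (n : ℕ), Val G w (n + 1) → Reg w n → Good G w (n + 1)

/-- A regular step increases the outflow of the vertex left by one, and changes no other outflow.

Proof. Let `x = w n`, `y = w (n+1)`, adjacent, so `x ≠ y`, and `cross w n x y ≥ 1`. Among the
`cross w · a b` only `(a, b) = (x, y)` (increases by one; positive before) and `(a, b) = (y, x)`
(decreases by one; it is `- cross w n x y < 0`, so its `toNat` is `0` before and after) change.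
`y ∈ G.neighborFinset x`. -/
def S_OUT : Prop := ∀ (V : Type) [DecidableEq V] (G : SimpleGraph V) [G.LocallyFinite]
  (w : ℕ → V) (n : ℕ), Val G w (n + 1) → Reg w n →
    ∀ z, out G w (n + 1) z = out G w n z + (if z = w n then 1 else 0)

/-- If no regular step is possible, the step is uniform.

Proof (uses S_CONS). Not `Good`: all `cross w n (w n) y ≤ 0` for the neighbours `y` of `w n`, and
their sum is `[w 0 = w n] - 1 ≥ -1` by S_CONS. So all of them are `0` or `-1`, and `wt γ 0 = 1`,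
`wt γ (-1) = 1 ^ (-γ) = 1`: `trans = 1 / ∑ 1 = 1 / degree`. -/
def S_NG : Prop := ∀ (V : Type) [DecidableEq V] (G : SimpleGraph V) [G.LocallyFinite] (γ : ℝ)
  (w : ℕ → V) (n : ℕ), Val G w n → ¬ Good G w n → ∀ y, G.Adj (w n) y →
    trans G γ w n y = 1 / (G.degree (w n) : ℝ) ∧ -1 ≤ cross w n (w n) y

/-- Bound of the probability of an irregular step.

Proof. Let `x = w n`, `k = out G w n x ≥ 1` (by `Good`), `d = degree x ≤ D`. Let `I` be the sum of
`wt γ (cross w n x y)` over the neighbours `y` with `cross ≤ 0` and `R` the sum over the neighbours with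
`cross > 0`. Every term of `I` is at most `1` (`(-c) ^ (-γ) ≤ 1` for `-c ≥ 1`), so `I ≤ D`. Some
neighbour has `cross ≥ k / d ≥ k / D` (the `k` are the sum of `d` numbers), so `R ≥ (k / D) ^ γ > 0`.
`irr = I / (I + R) ≤ D / (D + (k/D)^γ)`, since `I (D + (k/D)^γ) ≤ D (I + R)` iff `I (k/D)^γ ≤ D R`.
-/
def S_IRG : Prop := ∀ (V : Type) [DecidableEq V] (G : SimpleGraph V) [G.LocallyFinite] (γ : ℝ)
  (w : ℕ → V) (n D : ℕ), 0 < γ → 0 < D → G.degree (w n) ≤ D → Good G w n →
    irr G γ w n ≤ pg γ D (out G w n (w n))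

/-- The same at a vertex of degree two.

Proof (uses S_CONS). Let `x = w n`; the neighbours are `y, z`, one of them, `y`, has
`c = cross w n x y ≥ 1`, and by S_CONS `cross w n x z = [w 0 = x] - 1 - c ≤ -c < 0`. So
`out G w n x = c` and `irr = wt γ (cross x z) / (wt γ c + wt γ (cross x z)) ≤ c^(-γ) / (c^γ + c^(-γ)) =
1 / (1 + c^(2γ))` (monotone in `wt γ (cross x z) ≤ c^(-γ)`). -/
def S_IRC : Prop := ∀ (V : Type) [DecidableEq V] (G : SimpleGraph V) [G.LocallyFinite] (γ : ℝ)
  (w : ℕ → V) (n : ℕ), 0 < γ → Val G w n → G.degree (w n) = 2 → Good G w n →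
    irr G γ w n ≤ pc γ (out G w n (w n))

/-- The bounds are summable and less than one.

Proof. `pg γ D k ≤ D^(1+γ) k^(-γ)` for `k ≥ 1` and `γ > 1`; `pc γ k ≤ k^(-2γ)` for `k ≥ 1` and
`2γ > 1` (`Real.summable_nat_rpow`). For `k ≥ 1` the denominators are larger than the numerators. -/
def S_PG : Prop := (∀ (γ : ℝ) (D : ℕ), 1 < γ → 0 < D → Summable (pg γ D) ∧
    ∀ k, 1 ≤ k → 0 ≤ pg γ D k ∧ pg γ D k < 1) ∧
  ∀ γ : ℝ, 1 / 2 < γ → Summable (pc γ) ∧ ∀ k, 1 ≤ k → 0 ≤ pc γ k ∧ pc γ k < 1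

/-- Tails of an infinite product.

Proof. `a k = -log (1 - p k)` for `k ≥ 1`, `a 0 = 0`: nonnegative and summable (`a k ≤ 2 p k` as soon
as `p k ≤ 1/2`, which holds for all but finitely many `k`, since `p → 0`). `H m = exp (- ∑' j, a (m+j))`.
Monotone since the tails decrease, and `H m = exp (- a m) H (m+1) = (1 - p m) H (m+1)` for `m ≥ 1`. -/
def S_H : Prop := ∀ p : ℕ → ℝ, Summable p → (∀ k, 1 ≤ k → 0 ≤ p k ∧ p k < 1) →
  ∃ H : ℕ → ℝ, Monotone H ∧ (∀ m, 0 < H m ∧ H m ≤ 1) ∧ ∀ m, 1 ≤ m → H m ≤ (1 - p m) * H (m + 1)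

/-- A path which goes twice around a circuit from time `m` on is `Good` at some time.

Proof (uses S_NG). Otherwise it is not `Good` at the time `m`, so with `a = w m = u 0`, `b = w (m+1) =
u 1` we have `cross w m a b ≥ -1` (S_NG). During the times `m, ..., m + 2ℓ` the path makes the step
from `a` to `b` exactly twice (at the times `m` and `m + ℓ`; the others steps are `u i → u (i+1)` with
`i ≠ 0` in `ZMod ℓ`) and never the step from `b` to `a` (`u i = u 1` and `u (i+1) = u 0` would give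
`i = 1` and `2 = 0` in `ZMod ℓ`, `ℓ ≥ 3`). So `cross w (m+2ℓ) a b ≥ 1`, and `w (m + 2ℓ) = u (2ℓ) =
u 0 = a`, `G.Adj a b`: the path is `Good` at the time `m + 2ℓ`. (`Val G w (m+2ℓ)` holds.) -/
def S_LAS : Prop := ∀ (V : Type) [DecidableEq V] (G : SimpleGraph V) [G.LocallyFinite] (w : ℕ → V)
  (m ℓ : ℕ) (u : ZMod ℓ → V), IsCircuit G ℓ u → Val G w m → (∀ i : ℕ, i ≤ 2 * ℓ → w (m + i) = u i) →
    ∃ k, m ≤ k ∧ k ≤ m + 2 * ℓ ∧ Good G w k

/-- In a finite connected graph with a cycle every path can be continued so that it is `Good` after a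
bounded time.

Proof (uses S_LAS). Take a circuit `u : ZMod ℓ → V` (from a cycle `SimpleGraph.Walk.IsCycle`, which
has length `ℓ ≥ 3`; `¬ G.IsAcyclic`). From `x n` walk to `u 0` along a path (`SimpleGraph.Walk.IsPath`)
of length `t < Fintype.card V`, and then around `u` for ever. With `m = n + t` S_LAS gives a time
`≤ n + card V + 2ℓ =: n + L`. (If `x n = u 0`, then `t = 0`.) -/
def S_LEX : Prop := ∀ (V : Type) [DecidableEq V] [Fintype V] (G : SimpleGraph V) [G.LocallyFinite],
  G.Connected → ¬ G.IsAcyclic → ∃ L : ℕ, ∀ (x : ℕ → V) (n : ℕ), Val G x n →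
    ∃ y : ℕ → V, (∀ k ≤ n, y k = x k) ∧ (∀ N, Val G y N) ∧ ∃ m, n ≤ m ∧ m ≤ n + L ∧ Good G y m

/-- The same in `ℤ^d`, with a continuation near the end point of the path.

Proof (uses S_LAS). Continue with the circuit `a, a + e_0, a + e_0 + e_1, a + e_1` (`ℓ = 4`), `a = x n`,
for ever; `m = n` in S_LAS. -/
def S_LEXZ : Prop := ∀ d : ℕ, 2 ≤ d → ∀ (x : ℕ → Fin d → ℤ) (n : ℕ), Val (Zd d) x n →
    ∃ y : ℕ → Fin d → ℤ, (∀ k ≤ n, y k = x k) ∧ (∀ N, Val (Zd d) y N) ∧
      (∀ j, n ≤ j → ∀ i, |y j i - x n i| ≤ 1) ∧ ∃ m, n ≤ m ∧ m ≤ n + 8 ∧ Good (Zd d) y m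

/-- Degrees in `ℤ^d`, and `ℤ^d` is connected. (`Zd_near`: neighbours are in the box
`Set.Icc (x - 1) (x + 1)`, which has `3^d` points; `x ± e_0`, `x + e_1` are three neighbours.) -/
def S_ZDEG : Prop := ∀ d : ℕ, 2 ≤ d → ∀ x, 3 ≤ (Zd d).degree x ∧ (Zd d).degree x ≤ 3 ^ d

/-- Regular steps for ever, finite range and eventually only one exit from each vertex: trapped.

Proof. Let `I` be the (nonempty, finite) set of the vertices visited infinitely often; after some time
the path stays in `I` (`B` is finite). For `a ∈ I` at least one step `a → b` occurs infinitely often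
(the successors are in `B`, finite), and by the last hypothesis only one, `b = s a`; so after some time
`N` all the steps are `w (n+1) = s (w n)`, `w n ∈ I`, and all the steps are regular. `w N` is visited
again, let `m ≥ 1` be minimal with `w (N+m) = w N`. Then `w (N + j)` has period `m` and
`w N, ..., w (N+m-1)` are distinct (if `w (N+i) = w (N+j)`, `i < j < m`, apply `s` `m - j` times:
`w (N + i + m - j) = w (N+m) = w N`, `0 < i + m - j < m`). `m ≠ 1` since `w (N+1)` is adjacent to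
`w N`. `m ≠ 2`: after the regular step `a → b` at time `n` we have `cross w (n+1) b a ≤ -2 < 0`, so the
next regular step does not go back to `a`. So `u i = w (N + i.val)` on `ZMod m` is a circuit. -/
def S_TRAP : Prop := ∀ (V : Type) [DecidableEq V] (G : SimpleGraph V) [G.LocallyFinite] (w : ℕ → V)
  (B : Finset V), (∀ n, Val G w n) → (∀ n, w n ∈ B) → (∃ N, ∀ n, N ≤ n → Reg w n) →
    (∀ x y z, y ≠ z → ¬ ((∃ᶠ n in atTop, w n = x ∧ w (n + 1) = y) ∧
      (∃ᶠ n in atTop, w n = x ∧ w (n + 1) = z))) → w ∈ Trapped G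

/-- If all degrees are two and the steps are eventually regular there is eventually only one exit from
each vertex.

Proof (uses S_CONS). Let all steps from time `N` on be regular. If the step `x → y` occurs at a time
`n ≥ N`, then `cross w n x y > 0`, and `cross w · x y` never decreases after time `N` as long as it is
positive (a step `y → x` would have `cross y x < 0`), so `cross w k x y > 0` for all `k ≥ n`. If both
`x → y` and `x → z`, `y ≠ z`, occur infinitely often, then at some time `k` with `w k = x` both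
`cross w k x y, cross w k x z > 0`; `y, z` are the two neighbours of `x`, and S_CONS gives
`cross w k x y + cross w k x z = [w 0 = x] - 1 ≤ 0`. Contradiction. -/
def S_CYM : Prop := ∀ (V : Type) [DecidableEq V] (G : SimpleGraph V) [G.LocallyFinite] (w : ℕ → V),
  (∀ n, Val G w n) → (∀ x, G.degree x = 2) → (∃ N, ∀ n, N ≤ n → Reg w n) →
    ∀ x y z, y ≠ z → ¬ ((∃ᶠ n in atTop, w n = x ∧ w (n + 1) = y) ∧
      (∃ᶠ n in atTop, w n = x ∧ w (n + 1) = z))

/-- A path in `ℤ^d` with finitely many record times is bounded.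

Proof. Let there be no record times `≥ N`, and `M = max_{k ≤ N, i} |w k i|`. Then `|w n i| ≤ M` for all
`n`: if not, take the first `n` (so `n > N`) with `|w n i| > M` for some `i`; if `w n i > M` then
`w k i ≤ M < w n i` for all `k < n`, a record; similarly if `w n i < -M`. -/
def S_REC : Prop := ∀ (d : ℕ) (w : ℕ → Fin d → ℤ), ¬ (∃ᶠ n in atTop, Rec w n) →
  ∃ B : Finset (Fin d → ℤ), ∀ n, w n ∈ B

/-- The square at a record.

Proof. Let `a = x n` and let `i` be such that `x k i < a i` for all `k < n` (the other case is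
symmetric). Choose `j ≠ i`. The path `y` continues `x` by `a, a + e_i, a + e_i + e_j, a + e_j, a` (times
`n, ..., n + 4`), `B` is the set of these four points. Up to time `n` no point `z` with `z i ≥ a i` has
been visited except `a` at the time `n`, so before the step at time `n + s`, `s < 4`, `cross y (n+s) b z`
for `b ∈ B` is nonzero only for the edges of the square already crossed and for `(a, x (n-1))`, where it
is `-1` (if `n ≥ 1`); so `y (n+s)`, `s < 4`, has no positive crossing number to a neighbour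
(`¬ Good`), and at the time `n + 4`, for `b ∈ B` and all `z`: `cross y (n+4) b z > 0` iff `z = next b`,
where `next` is the successor in the square. In particular `Good` at the time `n + 4`. If
`w ∈ cyl y (n+4) ∩ Ev B (n+4)`, then by induction on `k ≥ n + 4`: `w k ∈ B`, `w (k+1) = next (w k)` and
for all `b ∈ B`, all `z`, `cross w k b z > 0 ↔ z = next b`: the step at time `k` is regular since all
`w j ∈ B`, `n + 4 ≤ j ≤ k`, so it goes to `next (w k)`; it increases `cross b (next b)` and decreases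
`cross (next b) b`, which is negative, for `b = w k`, and changes nothing else. So `w` is trapped in the
square, a circuit of length `4`. -/
def S_SQ : Prop := ∀ (d : ℕ), 2 ≤ d → ∀ (x : ℕ → Fin d → ℤ) (n : ℕ), Val (Zd d) x n → Rec x n →
  ∃ y : ℕ → Fin d → ℤ, (∀ k ≤ n, y k = x k) ∧ Val (Zd d) y (n + 4) ∧
    (∀ j, n ≤ j → j < n + 4 → ¬ Good (Zd d) y j) ∧ Good (Zd d) y (n + 4) ∧
    ∃ B : Finset (Fin d → ℤ), B.card = 4 ∧ ∀ w ∈ cyl y (n + 4) ∩ Ev B (n + 4),
      w ∈ Trapped (Zd d)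

/-- In a connected graph which is not 2-regular every circuit has a vertex of degree at least three.

Proof. Every vertex of the circuit has at least two neighbours (its predecessor and successor,
distinct since the length is at least three). If all of them had degree two (so `≤ 2`), all the
neighbours of the vertices of the circuit would be on the circuit, and the circuit would contain all
vertices by connectedness; then all the degrees are two. -/
def S_CIRC : Prop := ∀ (V : Type) [DecidableEq V] (G : SimpleGraph V) [G.LocallyFinite],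
  G.Connected → (∃ x, G.degree x ≠ 2) → ∀ (m : ℕ) (u : ZMod m → V), IsCircuit G m u →
    ∃ i, 3 ≤ G.degree (u i)

/-! ## Probability -/

/-- One step of the walk.

Proof. As in the library, `one_step` of `Pool/Graph/R_pool_sql_team_ae5b0c61/H41/Derrw3.lean` (there
for finite `V`; here `V` is countable: decompose `∫⁻ F dP` into the sum over the countably many paths
up to time `n + 1`: with `(a, b) : (Fin (n+1) → V) × V` use `lintegral_countable'` for the image measure
under `w ↦ ((w 0, ..., w n), w (n+1))`, the third property of `IsLaw`, and `trans G γ w n y = 0` unless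
`y` is a neighbour of `w n`). -/
def S_ONE : Prop := ∀ (V : Type) [DecidableEq V] [Countable V] [MeasurableSpace V]
  [DiscreteMeasurableSpace V] (G : SimpleGraph V) [G.LocallyFinite] (γ : ℝ) (v : V)
  (P : Measure (ℕ → V)), IsLaw G γ v P → ∀ (n : ℕ) (F : (ℕ → V) → ℝ≥0∞),
    (∀ w w', (∀ k ≤ n + 1, w k = w' k) → F w = F w') →
    ∫⁻ w, F w ∂P = ∫⁻ w, ∑ y ∈ G.neighborFinset (w n),
      ENNReal.ofReal (trans G γ w n y) * F (Function.update w (n + 1) y) ∂P

/-- Lévy's 0-1 law in terms of cylinders.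

Proof. Let `f n w = P (cyl w n ∩ E) / P (cyl w n)` (real). It is a version of the conditional
expectation of the indicator of `E` given the σ-algebra of the coordinates `0, ..., n` (a countable
partition into the cylinders), so `f n w → 1_E w` for a.e. `w` (`MeasureTheory.tendsto_ae_condExp`, or
`Integrable.tendsto_ae_condExp`, with the natural filtration, whose supremum is the product
σ-algebra). If `Q w n` for infinitely many `n`, then `f n w ≥ min ε 1 > 0` for these `n` (a.e. `w` has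
`P (cyl w n) > 0` for all `n`), so the limit is not `0`: `w ∈ E`. -/
def S_LEVY : Prop := ∀ (V : Type) [Countable V] [MeasurableSpace V] [DiscreteMeasurableSpace V]
  (P : Measure (ℕ → V)) [IsProbabilityMeasure P] (E : Set (ℕ → V)), MeasurableSet E →
    ∀ ε : ℝ≥0∞, 0 < ε → ∀ Q : (ℕ → V) → ℕ → Prop,
      (∀ w n, Q w n → ε * P (cyl w n) ≤ P (cyl w n ∩ E)) →
      ∀ᵐ w ∂P, (∃ᶠ n in atTop, Q w n) → w ∈ E

/-- The walk starts at `v` and moves along edges.

Proof. `P {w | w 0 = v} = 1`. For every path `x` of length `n + 1` with `¬ G.Adj (x n) (x (n+1))`,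
`trans G γ x n (x (n+1)) = 0`, so `P {w | ∀ k ≤ n + 1, w k = x k} = 0`; there are countably many such
cylinders. -/
def S_VAL : Prop := ∀ (V : Type) [DecidableEq V] [Countable V] [MeasurableSpace V]
  [DiscreteMeasurableSpace V] (G : SimpleGraph V) [G.LocallyFinite] (γ : ℝ) (v : V)
  (P : Measure (ℕ → V)), IsLaw G γ v P → ∀ᵐ w ∂P, w 0 = v ∧ ∀ n, Val G w n

/-- Probability to follow a path on which no regular step is possible.

Proof (uses S_NG). Induction on `m` from `n`: `P (cyl y (j+1)) = P (cyl y j) * ofReal (trans G γ y j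
(y (j+1)))` and `trans = 1 / degree (y j) ≥ 1 / D` by S_NG, for `n ≤ j < m`. -/
def S_FOLLOW : Prop := ∀ (V : Type) [DecidableEq V] [Countable V] [MeasurableSpace V]
  [DiscreteMeasurableSpace V] (G : SimpleGraph V) [G.LocallyFinite] (γ : ℝ) (v : V)
  (P : Measure (ℕ → V)), IsLaw G γ v P → ∀ (D : ℕ) (y : ℕ → V) (n m : ℕ), 0 < D → n ≤ m →
    Val G y m → (∀ j, n ≤ j → j < m → ¬ Good G y j ∧ G.degree (y j) ≤ D) →
    ENNReal.ofReal ((1 / (D : ℝ)) ^ (m - n)) * P (cyl y n) ≤ P (cyl y m)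

/-- Lower bound of the probability that all the steps before the exit from a finite set are regular.

Proof (uses S_ONE, S_GNEXT, S_OUT, S_VAL). Let `h w k = ∏ b ∈ B, H (out G w k b)`, so
`H 0 ^ B.card ≤ h ≤ 1` (H monotone, `0 < H ≤ 1`). For `k ≥ n` let `alive w k` be `∀ j, n ≤ j → j ≤ k →
w j ∈ B`, `ok w k` be `∀ j, n ≤ j → j < k → alive w j → Reg w j`, and `Z_k w = 0` if not `ok w k`,
`= h w k` if `ok w k` and `alive w k`, `= 1` if `ok w k` and not `alive w k`. Claim: for `k ≥ n` and `w`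
in `cyl x n` with `Val G w k`,
`Z_k w ≤ ∑ y ∈ N(w k), ofReal (trans G γ w k y) * Z_{k+1} (update w (k+1) y)` (values in `ℝ≥0∞`).
If not `ok w k`: `Z_k w = 0`. If `ok w k` and not `alive w k`: all the `Z_{k+1} = 1`, and the sum of
the `trans` over the neighbours is `1` (there is a neighbour, `hG`). If both: all steps in `[n, k)` are
regular, so `Good G w k` (hypothesis for `k = n`, S_GNEXT for `k > n`), and for a neighbour `y` with
`cross w k (w k) y > 0` the step is regular, `ok (update w (k+1) y) (k+1)` holds, and by S_OUT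
`h (update w (k+1) y) (k+1) = h w k * H (o + 1) / H o`, `o = out G w k (w k) ≥ 1`, `w k ∈ B`, which is
`≥ h w k / (1 - p o)`; in both cases (alive or not at time `k+1`) `Z_{k+1} ≥ h w k / (1 - p o)` (note
`h ≤ 1`). The total probability of these `y` is `1 - irr G γ w k ≥ 1 - p o`. So the sum is `≥ h w k`.
By S_ONE applied to `F = indicator (cyl x n) Z_{k+1}` (`k ≥ n`, the indicator does not depend on the
coordinate `k + 1`; S_VAL for `Val G w k` almost surely), `∫⁻ w in cyl x n, Z_k ∂P` is nondecreasing in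
`k ≥ n`; for `k = n` it is `≥ H 0 ^ B.card * P (cyl x n)`. `Z_k ≤ 1_{ok · k}`, so
`P (cyl x n ∩ {ok · k}) ≥ H 0 ^ B.card * P (cyl x n)` for all `k ≥ n`, and these sets decrease to
`cyl x n ∩ Ev B n` (`tendsto_measure_iInter_atTop`). -/
def S_KEY : Prop := ∀ (V : Type) [DecidableEq V] [Countable V] [MeasurableSpace V]
  [DiscreteMeasurableSpace V] (G : SimpleGraph V) [G.LocallyFinite] (γ : ℝ) (v : V)
  (P : Measure (ℕ → V)), (∀ x, ∃ y, G.Adj x y) → IsLaw G γ v P → ∀ (B : Finset V) (p H : ℕ → ℝ),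
    (∀ m, 1 ≤ m → 0 ≤ p m ∧ p m < 1) → Monotone H → (∀ m, 0 < H m ∧ H m ≤ 1) →
    (∀ m, 1 ≤ m → H m ≤ (1 - p m) * H (m + 1)) →
    (∀ w n, Val G w n → w n ∈ B → Good G w n → irr G γ w n ≤ p (out G w n (w n))) →
    ∀ (x : ℕ → V) (n : ℕ), Val G x n → Good G x n →
      ENNReal.ofReal (H 0 ^ B.card) * P (cyl x n) ≤ P (cyl x n ∩ Ev B n)

/-- A walk confined to a finite set makes eventually only regular steps.

Proof (uses S_KEY, S_FOLLOW, S_LEVY, S_VAL). Let `E = ⋃ m, Ev B' m` (measurable: each `Ev B' m` is a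
countable intersection of sets which depend on finitely many coordinates) and `Q w n = (Val G w n ∧
w n ∈ B)`. Let `Q w n` hold, take `y` and the first time `m ≥ n` with `Good G y m` (`m ≤ n + L`). By
S_FOLLOW (no `Good` before `m`) `P (cyl y m) ≥ (1/D)^(m-n) P (cyl y n) ≥ (1/D)^L P (cyl w n)` (`cyl y n =
cyl w n`), and by S_KEY `P (cyl w n ∩ E) ≥ P (cyl y m ∩ Ev B' m) ≥ H 0 ^ B'.card * P (cyl y m)`. So S_LEVY
applies with `ε = ofReal (H 0 ^ B'.card * (1/D)^L) > 0`: for a.e. `w` with `w n ∈ B` for all `n` (and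
`Val`, by S_VAL) `w ∈ Ev B' m` for some `m`, which says that all the steps from time `m` on are
regular (`B ⊆ B'`). -/
def S_CONF : Prop := ∀ (V : Type) [DecidableEq V] [Countable V] [MeasurableSpace V]
  [DiscreteMeasurableSpace V] (G : SimpleGraph V) [G.LocallyFinite] (γ : ℝ) (v : V)
  (P : Measure (ℕ → V)), (∀ x, ∃ y, G.Adj x y) → IsLaw G γ v P →
    ∀ (B B' : Finset V) (D L : ℕ) (p H : ℕ → ℝ), 0 < D → B ⊆ B' →
    (∀ m, 1 ≤ m → 0 ≤ p m ∧ p m < 1) → Monotone H → (∀ m, 0 < H m ∧ H m ≤ 1) →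
    (∀ m, 1 ≤ m → H m ≤ (1 - p m) * H (m + 1)) →
    (∀ w n, Val G w n → w n ∈ B' → Good G w n → irr G γ w n ≤ p (out G w n (w n))) →
    (∀ x, G.degree x ≤ D) →
    (∀ (x : ℕ → V) (n : ℕ), Val G x n → x n ∈ B → ∃ y : ℕ → V, (∀ k ≤ n, y k = x k) ∧
      (∀ N, Val G y N) ∧ ∃ m, n ≤ m ∧ m ≤ n + L ∧ Good G y m) →
    ∀ᵐ w ∂P, (∀ n, w n ∈ B) → ∃ N, ∀ n, N ≤ n → Reg w n

/-- The walk in `ℤ^d` with infinitely many record times is trapped.

Proof (uses S_SQ, S_FOLLOW, S_KEY, S_LEVY, S_VAL, S_ZDEG, S_IRG, S_PG, S_H). `E = Trapped (Zd d)` is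
countable (library: `trapped_countable` in `Pool.Graph.R_pool_sql_team_ae5b0c61.H41.Derrw1`), hence
measurable. `D = 3^d`, `p = pg γ D`, `H` from S_H. `Q w n = (Val (Zd d) w n ∧ Rec w n)`. If `Q w n`, take
`y, B` from S_SQ: `P (cyl w n ∩ E) ≥ P (cyl y (n+4) ∩ Ev B (n+4)) ≥ H 0 ^ 4 * P (cyl y (n+4)) ≥
H 0 ^ 4 * (1/D)^4 * P (cyl w n)` by S_SQ, S_KEY (with S_IRG) and S_FOLLOW. Then S_LEVY and S_VAL. -/
def S_ZINF : Prop := ∀ (d : ℕ) [MeasurableSpace (Fin d → ℤ)] [DiscreteMeasurableSpace (Fin d → ℤ)]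
  (γ : ℝ) (v : Fin d → ℤ) (P : Measure (ℕ → Fin d → ℤ)), 2 ≤ d → 1 < γ → IsLaw (Zd d) γ v P →
    ∀ᵐ w ∂P, (∃ᶠ n in atTop, Rec w n) → w ∈ Trapped (Zd d)

/-! ## Monopoly -/

/-- Tails of the zeta series.

Proof. `Summable (fun n : ℕ => (n:ℝ)^(-s))`, `tsum_eq_zero_add`, `tendsto_sum_nat_add`. -/
def S_TL : Prop := ∀ s : ℝ, 1 < s → (∀ m : ℕ, 1 ≤ m → tl s m = (m : ℝ) ^ (-s) + tl s (m + 1)) ∧
  (∀ m : ℕ, 1 ≤ m → 0 < tl s m) ∧ Tendsto (tl s) atTop (nhds 0)

/-- Supermartingales of the urn at the vertex `x`.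

Proof (uses S_ONE, S_VAL). For `w ∈ cyl x₀ n`, `k ≥ n`, let `g` be the condition that all the steps
in `[n, k)` are regular. If `g`, then `cross w k x y = a + cnt w n k x y` and `cross w k x z = b + cnt w n
k x z` (induction on `k`: these crossing numbers are `≥ 1`, so a step from `y` to `x` is not regular, and
a step from `x` to `y` is counted). `cnt w n (k+1) x y = cnt w n k x y + 1` if `g` and `w k = x`,
`w (k+1) = y`, and `= cnt w n k x y` otherwise. So for fixed `w 0, ..., w k`: with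
`f u = Ψ (a + cnt (update w (k+1) u) n (k+1) x y) (b + cnt (update w (k+1) u) n (k+1) x z)`,
`∑ u ∈ N(w k), trans G γ w k u * f u ≤ Ψ α β`, `α = a + cnt w n k x y`, `β = b + cnt w n k x z`: if not
`g` or `w k ≠ x` all the `f u = Ψ α β` (and the sum of `trans` is one: `G.Adj x y` gives a neighbour if
`w k = x`; in general use `(∀ x, ∃ y, G.Adj x y)`); if `g` and `w k = x` then `f u = Ψ α β` for
`u ≠ y, z`, `f y = Ψ (α+1) β`, `f z = Ψ α (β+1)`, `trans = α^γ / W`, `β^γ / W` at `y`, `z`, and the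
hypothesis on `Ψ` gives the inequality. Integrate over `cyl x₀ n` (S_ONE applied to the nonnegative
function `(Ψ + C) * indicator`), induction on `k ≥ n`; `cnt w n n x y = 0`. -/
def S_SUP : Prop := ∀ (V : Type) [DecidableEq V] [Countable V] [MeasurableSpace V]
  [DiscreteMeasurableSpace V] (G : SimpleGraph V) [G.LocallyFinite] (γ : ℝ) (v : V)
  (P : Measure (ℕ → V)), (∀ x, ∃ y, G.Adj x y) → IsLaw G γ v P →
    ∀ (x y z : V) (x₀ : ℕ → V) (n a b : ℕ), G.Adj x y → G.Adj x z → y ≠ z →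
    cross x₀ n x y = a → cross x₀ n x z = b → 1 ≤ a → 1 ≤ b → ∀ (Ψ : ℕ → ℕ → ℝ),
    (∃ C, ∀ α β, |Ψ α β| ≤ C) →
    (∀ α β : ℕ, 1 ≤ α → 1 ≤ β → (α : ℝ) ^ γ * (Ψ (α + 1) β - Ψ α β) +
      (β : ℝ) ^ γ * (Ψ α (β + 1) - Ψ α β) ≤ 0) →
    ∀ k, n ≤ k → ∫ w in cyl x₀ n, Ψ (a + cnt w n k x y) (b + cnt w n k x z) ∂P ≤
      Ψ a b * P.real (cyl x₀ n)

/-- The algebra of the urn: with `Y = tl γ α - tl γ β - μ` and `R = tl (2γ) α + tl (2γ) β`, `Y` and
`Y² + R` are harmonic, `Y⁴ + 8 Y² R + 19 R²` is superharmonic.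

Proof. A step at `y` (`α → α + 1`) changes `Y` by `δ = -α^(-γ)` and `R` by `-δ²`, a step at `z` changes
`Y` by `δ = β^(-γ)` and `R` by `-δ²` (S_TL), and the weighted sum `α^γ δ_y + β^γ δ_z = -1 + 1 = 0`. So it
is enough that the increments of the three functions are `δ`, `2Yδ` (`(Y+δ)² + R - δ² = Y² + R + 2Yδ`),
and `≤ (4Y³ + 16YR) δ`. The last one: with `δ² ≤ R` (`δ²` is the first term of one of the two series in
`R`), `(Y+δ)⁴ + 8 (Y+δ)² (R-δ²) + 19 (R-δ²)² - (Y⁴ + 8Y²R + 19R²) - (4Y³+16YR) δ = -2Y²δ² - 12Yδ³ +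
12δ⁴ - 30Rδ² = -2δ² (Y+3δ)² - 30 δ² (R - δ²) ≤ 0`. -/
def S_ALG : Prop := ∀ (γ μ : ℝ), 1 < γ → ∀ α β : ℕ, 1 ≤ α → 1 ≤ β →
  (let Y : ℕ → ℕ → ℝ := fun α β => tl γ α - tl γ β - μ
   let R : ℕ → ℕ → ℝ := fun α β => tl (2 * γ) α + tl (2 * γ) β
   let I : (ℕ → ℕ → ℝ) → ℝ := fun Ψ => (α : ℝ) ^ γ * (Ψ (α + 1) β - Ψ α β) +
     (β : ℝ) ^ γ * (Ψ α (β + 1) - Ψ α β)
   I Y = 0 ∧ I (fun α β => Y α β ^ 2 + R α β) = 0 ∧
     I (fun α β => Y α β ^ 4 + 8 * Y α β ^ 2 * R α β + 19 * R α β ^ 2) ≤ 0)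

/-- A second moment argument.

Proof. Let `t = ν.real univ` (if `t = 0` trivial), `q = ν.real E / t`, `E` the event. Suppose `q > 0.97`.
`∫ R ≤ r t (1 - q)` (R ≤ r, and R = 0 on E), so `∫ Y² ≥ r t q`, and `∫ Y² ≤ r t`. `0 = ∫ Y = c q t + ∫_{Eᶜ} Y`, so
by Cauchy-Schwarz `|c| q t ≤ (∫ Y²)^(1/2) (t (1-q))^(1/2) ≤ t (r (1-q))^(1/2)`, hence
`∫_E Y² = c² q t ≤ r t (1-q)/q`. `∫_{Eᶜ} Y² ≤ (∫ Y⁴)^(1/2) (t (1-q))^(1/2) ≤ r t (19 (1-q))^(1/2)`. Together
`q ≤ (1-q)/q + (19 (1-q))^(1/2) < 0.031 + 0.756`, a contradiction. (Instead of Cauchy-Schwarz one can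
integrate `|Y| ≤ (s Y² + 1/s)/2` and `Y² ≤ (s Y⁴ + 1/s)/2` over `Eᶜ` with suitable constants `s`.) -/
def S_PZ : Prop := ∀ (Ω : Type) [MeasurableSpace Ω] (ν : Measure Ω) [IsFiniteMeasure ν] (E : Set Ω)
  (Y R : Ω → ℝ) (r c C : ℝ), MeasurableSet E → Measurable Y → Measurable R → 0 < r →
    (∀ ω, |Y ω| ≤ C) → (∀ ω, 0 ≤ R ω ∧ R ω ≤ r) → ∫ ω, Y ω ∂ν = 0 →
    ∫ ω, (Y ω ^ 2 + R ω) ∂ν = r * ν.real Set.univ → ∫ ω, Y ω ^ 4 ∂ν ≤ 19 * r ^ 2 * ν.real Set.univ →
    (∀ ω ∈ E, Y ω = c ∧ R ω = 0) → ν.real E ≤ 97 / 100 * ν.real Set.univ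

/-- No exit pair is used infinitely often with probability close to one.

Proof (uses S_SUP, S_ALG, S_PZ, S_TL). Let `cross x₀ n x y = a`, `cross x₀ n x z = b`, `a, b ≥ 1`. The
counts `cnt w n k x y`, `cnt w n k x z` are nondecreasing in `k`. Let `μ = tl γ a - tl γ b` and
`Y_k w = tl γ (a + cnt w n k x y) - tl γ (b + cnt w n k x z) - μ`,
`R_k w = tl (2γ) (a + cnt w n k x y) + tl (2γ) (b + cnt w n k x z)`. By monotonicity they converge for
every `w` to `Y w`, `R w` (each of the four terms is antitone in `k` and nonnegative; define `Y, R` with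
`⨅ k`), `|Y_k| ≤ 2 tl γ 1`, `0 ≤ R_k ≤ r := tl (2γ) a + tl (2γ) b`. By S_SUP and S_ALG (also for `-Ψ`; `Ψ`
may be changed for `α = 0` or `β = 0` to be bounded) with `ν = P.restrict (cyl x₀ n)`, `t = ν univ`:
`∫ Y_k dν = 0`, `∫ (Y_k² + R_k) dν = r t`, `∫ Y_k⁴ dν ≤ ∫ (Y_k⁴ + 8Y_k²R_k + 19R_k²) ≤ 19 r² t`; dominated
convergence gives the same for `Y, R`. On the event in question all the steps from time `n` on are
regular, so both counts go to infinity (all the occurrences of `x → y` are counted), `Y = -μ`, `R = 0`.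
S_PZ. -/
def S_MB : Prop := ∀ (V : Type) [DecidableEq V] [Countable V] [MeasurableSpace V]
  [DiscreteMeasurableSpace V] (G : SimpleGraph V) [G.LocallyFinite] (γ : ℝ) (v : V)
  (P : Measure (ℕ → V)), (∀ x, ∃ y, G.Adj x y) → IsLaw G γ v P → 1 < γ →
    ∀ (x y z : V) (x₀ : ℕ → V) (n : ℕ), G.Adj x y → G.Adj x z → y ≠ z →
    0 < cross x₀ n x y → 0 < cross x₀ n x z →
    P.real (cyl x₀ n ∩ {w | (∀ k, n ≤ k → Reg w k) ∧ (∃ᶠ k in atTop, w k = x ∧ w (k + 1) = y) ∧
      (∃ᶠ k in atTop, w k = x ∧ w (k + 1) = z)}) ≤ 97 / 100 * P.real (cyl x₀ n)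

/-- Monopoly: eventually only one exit from each vertex.

Proof (uses S_MB, S_LEVY, S_VAL). Countably many `x, y, z` and `N`: it is enough that for fixed
`x, y, z, N` the event `F = {all steps from time N on regular, x → y i.o., x → z i.o.}` has probability
zero. If `y` or `z` is not a neighbour of `x`, use S_VAL. Apply S_LEVY to `E = Fᶜ`, `ε = 3/100`,
`Q w n = (N ≤ n ∧ 0 < cross w n x y ∧ 0 < cross w n x z)`: `F` is contained in the event of S_MB at time `n
≥ N`, so `P (cyl w n ∩ F) ≤ 97/100 P (cyl w n)`. Finally for `w ∈ F`, `Q w n` holds for all large `n`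
(indeed all `n ≥ N`): at a time `k ≥ N` of a step `x → y`, `cross w k x y > 0` (regular), and it stays
positive later, since a step `y → x` is not regular as long as it is positive. -/
def S_MONO : Prop := ∀ (V : Type) [DecidableEq V] [Countable V] [MeasurableSpace V]
  [DiscreteMeasurableSpace V] (G : SimpleGraph V) [G.LocallyFinite] (γ : ℝ) (v : V)
  (P : Measure (ℕ → V)), (∀ x, ∃ y, G.Adj x y) → IsLaw G γ v P → 1 < γ →
    ∀ᵐ w ∂P, (∃ N, ∀ n, N ≤ n → Reg w n) → ∀ x y z, y ≠ z →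
      ¬ ((∃ᶠ n in atTop, w n = x ∧ w (n + 1) = y) ∧ (∃ᶠ n in atTop, w n = x ∧ w (n + 1) = z))

end Pool.Agent.H979.DE
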